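import Pool.Agent.H85.QOV.Ix

/-! Coefficients of the biadditive map of `Nrm` and the two extraction formulas. -/

set_option autoImplicit false
set_option linter.unusedSectionVars false

namespace Pool.Agent.H51.QOV

open Finset

variable {F : Type} [Field F] [Fintype F] [CharP F 2] {h : ℕ} [NeZero h]

/-- coefficients. -/
def Nrm.cc (N : Nrm F h) (i j : ZMod h) : F := coef j (fun s => coef i (fun x => N.d x s))

theorem Nrm.symm (N : Nrm F h) (x s : F) : N.d x s = N.d s x := by
  have h1 := N.hd (x + s)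
  simp only [map_add, AddMonoidHom.add_apply, N.hd, zero_add, add_zero] at h1
  exact (CharTwo.add_eq_zero.mp h1).symm

theorem Nrm.rep [QF F h] (N : Nrm F h) (x s : F) :
    N.d x s = ∑ i, ∑ j, N.cc i j * fr i x * fr j s := by
  have h1 := lin_rep (h := h) (N.d.flip s) x
  have h2 : ∀ i : ZMod h, coef i (N.d.flip s : F → F) = ∑ j, N.cc i j * fr j s := by
    intro i
    let ψ : F →+ F :=
      { toFun := fun s => coef i (fun x => N.d x s)
        map_zero' := by simp [coef]
        map_add' := by
          intro a b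
          simp only [map_add]
          exact coef_add i _ _ }
    exact lin_rep (h := h) ψ s
  rw [AddMonoidHom.flip_apply] at h1
  rw [h1]
  refine Finset.sum_congr rfl fun i _ => ?_
  rw [h2, Finset.sum_mul]
  exact Finset.sum_congr rfl fun j _ => by ring

theorem Nrm.cc_symm (N : Nrm F h) (i j : ZMod h) : N.cc i j = N.cc j i := by
  unfold Nrm.cc coef
  simp only [Finset.mul_sum]
  rw [Finset.sum_comm]
  refine Finset.sum_congr rfl fun x _ => Finset.sum_congr rfl fun s _ => ?_
  rw [N.symm x s]; ring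

theorem Nrm.cc_zero_right (N : Nrm F h) (i : ZMod h) : N.cc i 0 = 0 := by
  rw [N.cc_symm]
  unfold Nrm.cc
  have h1 : ∀ s : F, coef (0 : ZMod h) (fun x => N.d x s) = 0 := by
    intro s
    unfold coef
    have := N.p0 s
    simp only [fr_zero]
    rw [← this]
    exact Finset.sum_congr rfl fun x _ => by rw [N.symm]
  simp only [h1]
  simp [coef]

theorem Nrm.cc_zero_left (N : Nrm F h) (i : ZMod h) : N.cc 0 i = 0 := by
  rw [N.cc_symm]; exact N.cc_zero_right i

theorem Nrm.cc_self [QF F h] (N : Nrm F h) (i : ZMod h) : N.cc i i = 0 := by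
  have hh : 4 ≤ h := QF.four (F := F)
  have h1 : ∑ x : F, N.d x x * (fr i x * fr i x)⁻¹ = N.cc i i := by
    simp only [N.rep, Finset.sum_mul]
    rw [Finset.sum_comm]
    have h2 : ∀ a : ZMod h, ∑ x : F, ∑ b : ZMod h, N.cc a b * fr a x * fr b x *
        (fr i x * fr i x)⁻¹ = ∑ b : ZMod h, N.cc a b * (if P a + P b = P i + P i then 1 else 0) := by
      intro a
      rw [Finset.sum_comm]
      refine Finset.sum_congr rfl fun b _ => ?_
      rw [← h85_orth2 (F := F), Finset.mul_sum]
      exact Finset.sum_congr rfl fun x _ => by ring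
    simp only [h2]
    rw [Finset.sum_eq_single i]
    · rw [Finset.sum_eq_single i]
      · simp
      · intro b _ hb
        rw [if_neg, mul_zero]
        intro H
        rw [P_succ] at H
        have := h85_one hh H.symm
        exact hb this.1.symm
      · simp
    · intro a _ ha
      refine Finset.sum_eq_zero fun b _ => ?_
      rw [if_neg, mul_zero]
      intro H
      rw [P_succ] at H
      have := h85_one hh H.symm
      exact ha (by simpa using this.2.symm)
    · simp
  rw [← h1]
  exact Finset.sum_eq_zero fun x _ => by rw [N.hd, zero_mul]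

/-- F2 after taking the adjoint in `x`. -/
theorem Nrm.adj [QF F h] (N : Nrm F h) (y : F) :
    ∑ i, ∑ j, fr (-i) (N.cc i j) * (fr (j - i + N.r) y * (fr (j - i) y * fr (N.r - i) y)⁻¹) = 0 := by
  by_cases hy : y = 0
  · subst hy; simp
  have h1 := h85_adj (h := h) (fr N.r y)⁻¹
    (fun i => ∑ j, N.cc i j * fr j (y⁻¹ * fr N.r y)) (by
      intro x
      rw [← N.F2 x y hy, N.rep]
      congr 2
      refine Finset.sum_congr rfl fun i _ => ?_
      rw [Finset.sum_mul]
      exact Finset.sum_congr rfl fun j _ => by ring)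
  rw [← h1]
  refine Finset.sum_congr rfl fun i _ => ?_
  rw [Finset.mul_sum, map_sum]
  refine Finset.sum_congr rfl fun j _ => ?_
  simp only [map_mul, map_inv₀]
  rw [← fr_add, ← fr_add, ← fr_add, ← fr_add]
  have e1 : -i + N.r = N.r - i := by ring
  have e2 : -i + j = j - i := by ring
  rw [e1, e2, mul_inv]
  ring

/-- F2, extraction. -/
theorem Nrm.ext2 [QF F h] (N : Nrm F h) (i0 j0 : ZMod h) :
    ∑ i, ∑ j, fr (-i) (N.cc i j) *
      (if P (j - i + N.r) + P (j0 - i0) + P (N.r - i0) =
        P (j - i) + P (N.r - i) + P (j0 - i0 + N.r) then 1 else 0) = 0 := by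
  have h1 : ∑ y : F, (fr (j0 - i0) y * fr (N.r - i0) y * (fr (j0 - i0 + N.r) y)⁻¹) *
      (∑ i : ZMod h, ∑ j : ZMod h, fr (-i) (N.cc i j) *
        (fr (j - i + N.r) y * (fr (j - i) y * fr (N.r - i) y)⁻¹)) = 0 :=
    Finset.sum_eq_zero fun y _ => by rw [N.adj, mul_zero]
  simp only [Finset.mul_sum] at h1
  rw [Finset.sum_comm] at h1
  refine Eq.trans ?_ h1
  refine Finset.sum_congr rfl fun i _ => ?_
  rw [Finset.sum_comm]
  refine Finset.sum_congr rfl fun j _ => ?_
  rw [← h85_orth3 (F := F), Finset.mul_sum]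
  refine Finset.sum_congr rfl fun y _ => ?_
  simp only [mul_inv]
  ring

end Pool.Agent.H51.QOV

namespace Pool.Agent.H51.QOV

open Finset

variable {F : Type} [Field F] [Fintype F] [CharP F 2] {h : ℕ} [NeZero h]

theorem h85_tr_expand [QF F h] (r : ZMod h) (G : ZMod h → F) (y : F) :
    tr h ((fr r y)⁻¹ * ∑ i, G i * fr i (y⁻¹ * fr r y)) =
      ∑ k, ∑ i, fr k (G i) * (fr (i + r + k) y * (fr (r + k) y * fr (i + k) y)⁻¹) := by
  unfold tr
  refine Finset.sum_congr rfl fun k _ => ?_
  rw [Finset.mul_sum, map_sum]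
  refine Finset.sum_congr rfl fun i _ => ?_
  simp only [map_mul, map_inv₀]
  rw [← fr_add, ← fr_add, ← fr_add, ← fr_add]
  have e1 : k + r = r + k := by ring
  have e2 : k + i = i + k := by ring
  have e3 : i + k + r = i + r + k := by ring
  rw [e1, e2, e3, mul_inv]
  ring

theorem h85_ext1 [QF F h] (r : ZMod h) (G : ZMod h → F) (i0 : ZMod h) :
    ∑ y : F, (fr r y * fr i0 y * (fr (i0 + r) y)⁻¹) *
        tr h ((fr r y)⁻¹ * ∑ i, G i * fr i (y⁻¹ * fr r y)) =
      ∑ k, ∑ i, fr k (G i) *
        (if P (i + r + k) + P r + P i0 = P (r + k) + P (i + k) + P (i0 + r) then 1 else 0) := by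
  simp only [h85_tr_expand]
  simp only [Finset.mul_sum]
  rw [Finset.sum_comm]
  refine Finset.sum_congr rfl fun k _ => ?_
  rw [Finset.sum_comm]
  refine Finset.sum_congr rfl fun i _ => ?_
  rw [← h85_orth3 (F := F), Finset.mul_sum]
  refine Finset.sum_congr rfl fun y _ => ?_
  simp only [mul_inv]
  ring

theorem h85_orth21 [QF F h] (a b c : ZMod h) :
    ∑ x : F, fr a x * fr b x * (fr c x)⁻¹ = if P a + P b = P c then 1 else 0 := by
  have := orthL (F := F) [a, b] [c] (by simp) (by simp)
  simpa using this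

end Pool.Agent.H51.QOV
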