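import Pool.Agent.H85.QOV.Tl

/-! Solution sets of the exponent congruences of Step 4. -/

set_option autoImplicit false
set_option linter.unusedVariables false

namespace Pool.Agent.H51.QOV
variable {h : ℕ} [NeZero h]

theorem h85_ix2 (hh : 4 ≤ h) {r a b a0 b0 : ZMod h} (hr : 2 * r = 1) (r0 : r ≠ 0)
    (r2 : r ≠ -1) (hab : a ≠ b) (hab0 : a0 ≠ b0) (h1 : b0 - a0 ≠ 1) (h2 : b0 - a0 ≠ r)
    (H : P (b + r) + P b0 + P (r + a0) = P b + P (r + a) + P (b0 + r)) :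
    a = a0 ∧ b = b0 := by
  have e1 := one_ne' hh
  have e2 := two_ne' hh
  have e3 := three_ne' hh
  have H1 := nf_eq hh H
  have H2 : ∀ x, x ∈ nf (b + r) b0 (r + a0) ↔ x ∈ nf b (r + a) (b0 + r) := fun x => by rw [H1]
  simp only [h85_nf_mem] at H2
  have Ha := H2 (b + r)
  have Hb := H2 b0
  have Hc := H2 (r + a0)
  have Hd := H2 b
  have He := H2 (r + a)
  have Hf := H2 (b0 + r)
  have Hg := H2 (b + r + 1)
  have Hi := H2 (b0 + 1)
  have Hj := H2 (b + 1)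
  have Hk := H2 (b0 + r + 1)
  clear H2 H1 H
  split_ifs at * <;> grind

theorem h85_ix1a (hh : 4 ≤ h) {r i j : ZMod h} (r0 : r ≠ 0) (r1 : r ≠ 1) (hij : i ≠ j)
    (hi : i ≠ 0) (hj : j ≠ 0) (H : P (i + r) + P (j + r) = P r + P i + P j) :
    2 * r = 1 ∧ ((i = 1 ∧ j = r) ∨ (i = r ∧ j = 1)) := by
  have e1 := one_ne' hh
  have e2 := two_ne' hh
  have e3 := three_ne' hh
  have H0 : P (i + r - 1) + P (i + r - 1) + P (j + r) = P r + P i + P j := by
    rw [P_succ, ← H]; congr 2; ring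
  have H1 := nf_eq hh H0
  have H2 : ∀ x, x ∈ nf (i + r - 1) (i + r - 1) (j + r) ↔ x ∈ nf r i j := fun x => by rw [H1]
  simp only [h85_nf_mem] at H2
  have Ha := H2 (i + r)
  have Hb := H2 (j + r)
  have Hc := H2 r
  have Hd := H2 i
  have He := H2 j
  have Hf := H2 (r + 1)
  have Hg := H2 (i + 1)
  have Hk := H2 (j + 1)
  clear H2 H1 H H0
  split_ifs at * <;> grind

theorem h85_ix1c (hh : 4 ≤ h) {r i k i0 : ZMod h} (hr : 2 * r = 1) (r0 : r ≠ 0)
    (r1 : r ≠ 1) (r2 : r ≠ -1) (h1 : i0 ≠ 1) (h2 : i0 ≠ r)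
    (H : P (i + r + k) + P r + P i0 = P (r + k) + P (i + k) + P (i0 + r)) :
    k = 0 ∧ i = i0 := by
  have e1 := one_ne' hh
  have e2 := two_ne' hh
  have e3 := three_ne' hh
  have H1 := nf_eq hh H
  have H2 : ∀ x, x ∈ nf (i + r + k) r i0 ↔ x ∈ nf (r + k) (i + k) (i0 + r) :=
    fun x => by rw [H1]
  simp only [h85_nf_mem] at H2
  have Ha := H2 (i + r + k)
  have Hb := H2 r
  have Hc := H2 i0
  have Hd := H2 (r + k)
  have He := H2 (i + k)
  have Hf := H2 (i0 + r)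
  have Hg := H2 (r + 1)
  have Hi := H2 (i + r + k + 1)
  have Hj := H2 (r + k + 1)
  have Hk := H2 (i + k + 1)
  clear H2 H1 H
  split_ifs at * <;> grind

theorem h85_ix1d (hh : 4 ≤ h) {r i k : ZMod h} (hr : 2 * r = 1) (r0 : r ≠ 0)
    (r1 : r ≠ 1) (r2 : r ≠ -1)
    (H : P (i + r + k) + P r + P 1 = P (r + k) + P (i + k) + P (1 + r)) :
    (k = 0 ∧ i = 1) ∨ (k = -r ∧ i = r) := by
  have e1 := one_ne' hh
  have e2 := two_ne' hh
  have e3 := three_ne' hh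
  have H1 := nf_eq hh H
  have H2 : ∀ x, x ∈ nf (i + r + k) r 1 ↔ x ∈ nf (r + k) (i + k) (1 + r) :=
    fun x => by rw [H1]
  simp only [h85_nf_mem] at H2
  have Ha := H2 (i + r + k)
  have Hb := H2 r
  have Hc := H2 1
  have Hd := H2 (r + k)
  have He := H2 (i + k)
  have Hf := H2 (1 + r)
  have Hg := H2 2
  have Hi := H2 (i + r + k + 1)
  have Hj := H2 (r + k + 1)
  have Hk := H2 (i + k + 1)
  clear H2 H1 H
  split_ifs at * <;> grind

end Pool.Agent.H51.QOV
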