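import Pool.Agent.H51.QOV.Bas

/-! Three-term sums of powers of two modulo `2 ^ h - 1`: carry normal form. -/

set_option autoImplicit false
set_option linter.unusedSectionVars false
set_option linter.style.haveILetI false

namespace Pool.Agent.H51.QOV

variable {h : ℕ} [NeZero h]

/-- Normal form of a sum of three powers of two modulo `2 ^ h - 1`. -/
def nf (i j l : ZMod h) : Finset (ZMod h) :=
  if i = j then (if l = i then {i, i + 1} else if l = i + 1 then {i + 2} else {i + 1, l})
  else if j = l then (if i = j + 1 then {j + 2} else {j + 1, i})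
  else if i = l then (if j = i + 1 then {i + 2} else {i + 1, j})
  else {i, j, l}

theorem one_ne' (hh : 4 ≤ h) : (1 : ZMod h) ≠ 0 := by
  intro h1
  have h2 : ((1 : ℕ) : ZMod h) = 0 := by rw [Nat.cast_one]; exact h1
  rw [ZMod.natCast_eq_zero_iff] at h2
  exact absurd (Nat.le_of_dvd (by norm_num) h2) (by omega)

theorem two_ne' (hh : 4 ≤ h) : (2 : ZMod h) ≠ 0 := by
  intro h1
  have h2 : ((2 : ℕ) : ZMod h) = 0 := by rw [Nat.cast_ofNat]; exact h1
  rw [ZMod.natCast_eq_zero_iff] at h2
  exact absurd (Nat.le_of_dvd (by norm_num) h2) (by omega)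

theorem three_ne' (hh : 4 ≤ h) : (3 : ZMod h) ≠ 0 := by
  intro h1
  have h2 : ((3 : ℕ) : ZMod h) = 0 := by rw [Nat.cast_ofNat]; exact h1
  rw [ZMod.natCast_eq_zero_iff] at h2
  exact absurd (Nat.le_of_dvd (by norm_num) h2) (by omega)

theorem nf_card_le (i j l : ZMod h) : (nf i j l).card ≤ 3 := by
  unfold nf
  split_ifs
  all_goals first
    | exact (Finset.card_le_two).trans (by norm_num)
    | exact (Finset.card_le_three)
    | (rw [Finset.card_singleton]; norm_num)

theorem nf_ne_univ (hh : 4 ≤ h) (i j l : ZMod h) : nf i j l ≠ Finset.univ := by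
  intro h1
  have h2 := nf_card_le i j l
  rw [h1, Finset.card_univ, ZMod.card] at h2
  omega

theorem nf_sum (hh : 4 ≤ h) (i j l : ZMod h) : ∑ x ∈ nf i j l, P x = P i + P j + P l := by
  have e1 := one_ne' hh
  have two : ∀ i l : ZMod h, l ≠ i + 1 →
      ∑ x ∈ ({i + 1, l} : Finset (ZMod h)), P x = P i + P i + P l := by
    intro i l hl
    rw [Finset.sum_pair (by exact fun h => hl h.symm), P_succ]
  have one : ∀ i : ZMod h,
      ∑ x ∈ ({i + 2} : Finset (ZMod h)), P x = P i + P i + P (i + 1) := by
    intro i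
    rw [Finset.sum_singleton, P_succ, P_succ, show i + 1 + 1 = i + 2 by ring]
  unfold nf
  split_ifs with h1 h2 h3 h4 h5 h6 h7
  · subst h1; subst h2
    rw [Finset.sum_pair (by intro h; exact e1 (by simpa using h.symm))]
    rw [P_succ, add_comm]
  · subst h1; subst h3; exact one i
  · subst h1; exact two i l h3
  · subst h4; subst h5
    rw [one j]; ring
  · subst h4
    rw [two j i h5]; ring
  · subst h6; subst h7
    rw [one i]; ring
  · subst h6
    rw [two i j h7]; ring
  · rw [Finset.sum_insert, Finset.sum_pair h4]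
    · rw [add_assoc]
    · simp only [Finset.mem_insert, Finset.mem_singleton, not_or]
      exact ⟨h1, h6⟩

theorem nf_eq (hh : 4 ≤ h) {i j l i' j' l' : ZMod h}
    (H : P i + P j + P l = P i' + P j' + P l') : nf i j l = nf i' j' l' :=
  P_sum_inj (nf_ne_univ hh _ _ _) (nf_ne_univ hh _ _ _)
    ((nf_sum hh _ _ _).trans (H.trans (nf_sum hh _ _ _).symm))

end Pool.Agent.H51.QOV
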