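import Pool.Agent.H85.QOV.SLP
import Pool.Agent.H51.QOV.Stmt

/-! Tools: orthogonality for two and three factors, adjoint of the trace form. -/

set_option autoImplicit false
set_option linter.unusedSectionVars false
set_option linter.style.haveILetI false

namespace Pool.Agent.H51.QOV

open Finset

section idx
variable {h : ℕ} [NeZero h]

theorem h85_nf_mem (x i j l : ZMod h) : x ∈ nf i j l ↔
    (if i = j then (if l = i then x = i ∨ x = i + 1 else if l = i + 1 then x = i + 2
      else x = i + 1 ∨ x = l)
    else if j = l then (if i = j + 1 then x = j + 2 else x = j + 1 ∨ x = i)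
    else if i = l then (if j = i + 1 then x = i + 2 else x = i + 1 ∨ x = j)
    else x = i ∨ x = j ∨ x = l) := by
  unfold nf
  split_ifs <;> simp

/-- two terms against two different terms. -/
theorem h85_two (hh : 4 ≤ h) {a b c d : ZMod h} (hcd : c ≠ d) (H : P a + P b = P c + P d) :
    (a = c ∧ b = d) ∨ (a = d ∧ b = c) := by
  have hcard : ∀ S : Finset (ZMod h), S.card ≤ 2 → S ≠ univ := by
    intro S hS h1
    rw [h1, Finset.card_univ, ZMod.card] at hS
    omega
  by_cases hab : a = b
  · subst hab
    rw [P_succ] at H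
    have h1 : ({a + 1} : Finset (ZMod h)) = {c, d} := by
      apply P_sum_inj (hcard _ (by simp)) (hcard _ Finset.card_le_two)
      rw [Finset.sum_singleton, Finset.sum_pair hcd, H]
    have hc : c ∈ ({a + 1} : Finset (ZMod h)) := by rw [h1]; simp
    have hd : d ∈ ({a + 1} : Finset (ZMod h)) := by rw [h1]; simp
    rw [Finset.mem_singleton] at hc hd
    exact absurd (hc.trans hd.symm) hcd
  · have h1 : ({a, b} : Finset (ZMod h)) = {c, d} := by
      apply P_sum_inj (hcard _ Finset.card_le_two) (hcard _ Finset.card_le_two)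
      rw [Finset.sum_pair hab, Finset.sum_pair hcd, H]
    have ha : a ∈ ({c, d} : Finset (ZMod h)) := by rw [← h1]; simp
    have hb : b ∈ ({c, d} : Finset (ZMod h)) := by rw [← h1]; simp
    simp only [Finset.mem_insert, Finset.mem_singleton] at ha hb
    grind

theorem h85_one (hh : 4 ≤ h) {a b c : ZMod h} (H : P a = P b + P c) : b = c ∧ a = b + 1 := by
  have hcard : ∀ S : Finset (ZMod h), S.card ≤ 2 → S ≠ univ := by
    intro S hS h1
    rw [h1, Finset.card_univ, ZMod.card] at hS
    omega
  by_cases hbc : b = c
  · subst hbc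
    rw [P_succ] at H
    have h1 : ({a} : Finset (ZMod h)) = {b + 1} := by
      apply P_sum_inj (hcard _ (by simp)) (hcard _ (by simp))
      rw [Finset.sum_singleton, Finset.sum_singleton, H]
    exact ⟨rfl, by simpa using h1⟩
  · have h1 : ({a} : Finset (ZMod h)) = {b, c} := by
      apply P_sum_inj (hcard _ (by simp)) (hcard _ Finset.card_le_two)
      rw [Finset.sum_singleton, Finset.sum_pair hbc, H]
    have hb : b ∈ ({a} : Finset (ZMod h)) := by rw [h1]; simp
    have hc : c ∈ ({a} : Finset (ZMod h)) := by rw [h1]; simp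
    rw [Finset.mem_singleton] at hb hc
    exact absurd (hb.trans hc.symm) hbc

end idx

variable {F : Type} [Field F] [Fintype F] [CharP F 2] {h : ℕ} [NeZero h]

theorem h85_orth2 [QF F h] (a b c d : ZMod h) :
    ∑ x : F, fr a x * fr b x * (fr c x * fr d x)⁻¹ = if P a + P b = P c + P d then 1 else 0 := by
  have := orthL (F := F) [a, b] [c, d] (by simp) (by simp)
  simpa using this

theorem h85_orth3 [QF F h] (a b c a' b' c' : ZMod h) :
    ∑ x : F, fr a x * fr b x * fr c x * (fr a' x * fr b' x * fr c' x)⁻¹ =
      if P a + P b + P c = P a' + P b' + P c' then 1 else 0 := by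
  have := orthL (F := F) [a, b, c] [a', b', c'] (by simp) (by simp)
  simp only [List.map_cons, List.map_nil, List.prod_cons, List.prod_nil, mul_one, List.sum_cons,
    List.sum_nil, add_zero] at this
  simp only [mul_assoc, add_assoc] at this ⊢
  exact this

theorem h85_tr_mul_fr [QF F h] (i : ZMod h) (w x : F) :
    tr h (w * fr i x) = tr h (fr (-i) w * x) := by
  rw [← tr_fr (-i) (w * fr i x), map_mul, fr_neg']

/-- adjoint of an additive map for the trace form. -/
theorem h85_adj [QF F h] (w : F) (α : ZMod h → F)
    (H : ∀ x : F, tr h (w * ∑ i, α i * fr i x) = 0) : ∑ i, fr (-i) (w * α i) = 0 := by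
  apply tr_nondeg (h := h)
  intro x
  have h1 := H x
  rw [Finset.mul_sum, tr_sum] at h1
  rw [Finset.sum_mul, tr_sum, ← h1]
  refine Finset.sum_congr rfl fun i _ => ?_
  rw [← mul_assoc, h85_tr_mul_fr]

end Pool.Agent.H51.QOV
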